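import Pool.Agent.Helper60.FU.RowR1

/-!
Fused machine (MP_c75db0, star frame), row R: rounding of a sum of products.
-/

set_option autoImplicit false
set_option exponentiation.threshold 100000
noncomputable section
namespace Pool.Agent.Helper91.FU

open Finset
open Pool.Agent.Helper91
open Pool.Agent.Helper90.KMT (PT)
open Pool.Agent.Helper90.KMO (UU UU_pos andB_t)
open Pool.Agent.Helper86.CX (andB)
open Pool.Agent.Helper86.CT (Mo)
open Pool.Agent.Helper91.TM (TP Sm Sz Sp Ev Nh zc tS vb xd ds SB fo fo_t fo_f cst_of Sm_add Sm_sub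
  Sm_mul Sm_land Sm_shift Sm_congr Sz_cast Sz_congr land_ones bs blk Sm_of)
open Pool.Agent.Helper91.TMK (TOK)

namespace R60

theorem fH_eq : fH = Sm 301 (fun i => fo (nat_lit 730750818665452757176057654527958449767709671424)
    (vb i)) := cst_of (by decide +kernel)
theorem fK_eq : fK = Sm 301 (fun i => fo (nat_lit 562949953421311) (vb i)) :=
  cst_of (by decide +kernel)

/-- a rounded coefficient -/
def rq (p : ℕ → ℤ) (i : ℕ) : ℤ := if vb i = true then (p i + 2 ^ 30) / 2 ^ 31 else 0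

theorem rq_sp (p : ℕ → ℤ) : Sp (rq p) := by
  intro i hi
  unfold rq
  rw [if_neg (by simp [hi])]

theorem rq_abs {p : ℕ → ℤ} (hp : ∀ i, |p i| ≤ 2 ^ 76) (i : ℕ) : |rq p i| ≤ 2 ^ 46 := by
  have h := abs_le.1 (hp i)
  unfold rq
  split_ifs
  · rw [abs_le]
    constructor <;> omega
  · norm_num

/-- the error of a rounding -/
theorem rq_err {p : ℕ → ℤ} (sp : Sp p) (i : ℕ) : |(p i : ℝ) / 2 ^ 31 - (rq p i : ℝ)| ≤ 1 / 2 := by
  unfold rq
  split_ifs with hv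
  · have h1 : ((p i + 2 ^ 30) / 2 ^ 31) * 2 ^ 31 ≤ p i + 2 ^ 30 :=
      Int.ediv_mul_le _ (by norm_num)
    have h2 : p i + 2 ^ 30 < ((p i + 2 ^ 30) / 2 ^ 31 + 1) * 2 ^ 31 :=
      Int.lt_ediv_add_one_mul_self _ (by norm_num)
    set r : ℤ := (p i + 2 ^ 30) / 2 ^ 31 with hr
    have h3 : (r : ℝ) * 2 ^ 31 ≤ (p i : ℝ) + 2 ^ 30 := by exact_mod_cast h1
    have h4 : (p i : ℝ) + 2 ^ 30 < ((r : ℝ) + 1) * 2 ^ 31 := by exact_mod_cast h2
    rw [abs_le]
    have e : (p i : ℝ) / 2 ^ 31 = (p i : ℝ) * (1 / 2 ^ 31) := by ring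
    constructor
    · have : (r : ℝ) - 1 / 2 ≤ (p i : ℝ) / 2 ^ 31 := by
        rw [le_div_iff₀ (by norm_num)]
        linarith
      linarith
    · have : (p i : ℝ) / 2 ^ 31 ≤ (r : ℝ) + 1 / 2 := by
        rw [div_le_iff₀ (by norm_num)]
        linarith
      linarith
  · rw [sp i (by simpa using hv)]
    norm_num

/-- the digits of the sum of products with the offsets -/
def dY (p q : ℕ → ℤ) (i : ℕ) : ℕ := if vb i = true then
  (p i + (2 ^ 79 + 2 ^ 30)).toNat + 2 ^ 80 * (q i + (2 ^ 79 + 2 ^ 30)).toNat else 0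

theorem dY_lt {p q : ℕ → ℤ} (hp : ∀ i, |p i| ≤ 2 ^ 76) (hq : ∀ i, |q i| ≤ 2 ^ 76) (i : ℕ) :
    dY p q i < 2 ^ 160 := by
  have h1 := abs_le.1 (hp i)
  have h2 := abs_le.1 (hq i)
  unfold dY
  split_ifs
  · have h3 : (p i + (2 ^ 79 + 2 ^ 30)).toNat < 2 ^ 80 := by omega
    have h4 : (q i + (2 ^ 79 + 2 ^ 30)).toNat ≤ 2 ^ 80 - 1 := by omega
    have h5 : 2 ^ 80 * (q i + (2 ^ 79 + 2 ^ 30)).toNat ≤ 2 ^ 80 * (2 ^ 80 - 1) :=
      Nat.mul_le_mul_left _ h4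
    have h6 : (2 : ℕ) ^ 80 * (2 ^ 80 - 1) + 2 ^ 80 = 2 ^ 160 := by norm_num
    omega
  · norm_num

theorem Y_eq {N : ℕ} {p q : ℕ → ℤ}
    (hN : (N : ℤ) ≡ Sz 301 (fun i => p i + 2 ^ 80 * q i) [ZMOD 2 ^ (160 * 301)])
    (sp : Sp p) (sq : Sp q) (hp : ∀ i, |p i| ≤ 2 ^ 76) (hq : ∀ i, |q i| ≤ 2 ^ 76) :
    Nat.land (Nat.add N fH) TM.cMA = Sm 301 (dY p q) := by
  have hd : ∀ i < 301, dY p q i < 2 ^ 160 := fun i _ => dY_lt hp hq i
  have hc : ∀ i < 301, (p i + 2 ^ 80 * q i) +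
      ((fo (nat_lit 730750818665452757176057654527958449767709671424) (vb i) : ℕ) : ℤ) =
      ((dY p q i : ℕ) : ℤ) := by
    intro i _
    have h1 := abs_le.1 (hp i)
    have h2 := abs_le.1 (hq i)
    unfold dY
    cases hv : vb i
    · rw [fo_f, sp i hv, sq i hv]
      rfl
    · rw [fo_t, if_pos rfl]
      push_cast
      rw [Int.toNat_of_nonneg (by omega), Int.toNat_of_nonneg (by omega)]
      ring
  obtain ⟨T, hT⟩ := Sm_of hN hd hc
  rw [← fH_eq] at hT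
  have e1 : Nat.land (Nat.add N fH) TM.cMA = (N + fH) &&& TM.cMA := rfl
  rw [e1, TM.cMA_eq, land_ones, hT, Nat.add_mul_mod_self_left,
    Nat.mod_eq_of_lt (TM.Sm_lt hd)]

theorem toNat_div {z : ℤ} (h : 0 ≤ z) (k : ℕ) : ((z.toNat / 2 ^ k : ℕ) : ℤ) = z / 2 ^ k := by
  push_cast
  rw [Int.toNat_of_nonneg h]

/-- the digits of the real part -/
theorem re_eq {p q : ℕ → ℤ} (hp : ∀ i, |p i| ≤ 2 ^ 76) (hq : ∀ i, |q i| ≤ 2 ^ 76) :
    ((Nat.land (Nat.shiftRight (Sm 301 (dY p q)) (nat_lit 31)) fK : ℕ) : ℤ) =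
      Sz 301 (fun i => rq p i + ov i) := by
  have hd : ∀ i < 301, dY p q i < 2 ^ 160 := fun i _ => dY_lt hp hq i
  have e1 : Nat.shiftRight (Sm 301 (dY p q)) (nat_lit 31) =
      (Sm 301 (dY p q) + 2 ^ (160 * 301) * 0) / 2 ^ 31 := by
    rw [mul_zero, add_zero]
    exact Nat.shiftRight_eq_div_pow _ _
  have e2 : Nat.land (Nat.shiftRight (Sm 301 (dY p q)) (nat_lit 31)) fK =
      Sm 301 (fun i => (dY p q i / 2 ^ 31) &&& fo (nat_lit 562949953421311) (vb i)) := by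
    rw [e1, fK_eq]
    refine Sm_shift (s := 31) (by norm_num) hd (m := fun i => fo (nat_lit 562949953421311) (vb i))
      ?_ 0
    intro i _
    show fo 562949953421311 (vb i) < _
    cases vb i
    · rw [fo_f]; norm_num
    · rw [fo_t]; norm_num
  rw [e2, Sz_cast]
  refine Sz_congr fun i _ => ?_
  have h1 := abs_le.1 (hp i)
  have h2 := abs_le.1 (hq i)
  show (((dY p q i / 2 ^ 31) &&& fo 562949953421311 (vb i) : ℕ) : ℤ) = rq p i + ov i
  unfold dY rq ov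
  cases hv : vb i
  · rw [fo_f, Nat.and_zero]
    simp
  · have e5 : (562949953421311 : ℕ) = 2 ^ 49 - 1 := by norm_num
    rw [fo_t, if_pos rfl, if_pos rfl, if_pos rfl, e5, land_ones]
    set P : ℕ := (p i + (2 ^ 79 + 2 ^ 30)).toNat with hP
    set Q : ℕ := (q i + (2 ^ 79 + 2 ^ 30)).toNat with hQ
    have hP80 : P < 2 ^ 80 := by omega
    have e6 : (P + 2 ^ 80 * Q) / 2 ^ 31 % 2 ^ 49 = P / 2 ^ 31 := by
      have : P + 2 ^ 80 * Q = P + 2 ^ 31 * (2 ^ 49 * Q) := by ring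
      rw [this, Nat.add_mul_div_left _ _ (by norm_num), Nat.add_mul_mod_self_left,
        Nat.mod_eq_of_lt (by omega)]
    rw [e6, hP, toNat_div (by omega)]
    omega

/-- the digits of the imaginary part -/
theorem im_eq {p q : ℕ → ℤ} (hp : ∀ i, |p i| ≤ 2 ^ 76) (hq : ∀ i, |q i| ≤ 2 ^ 76) :
    ((Nat.land (Nat.shiftRight (Sm 301 (dY p q)) (nat_lit 111)) fK : ℕ) : ℤ) =
      Sz 301 (fun i => rq q i + ov i) := by
  have hd : ∀ i < 301, dY p q i < 2 ^ 160 := fun i _ => dY_lt hp hq i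
  have e1 : Nat.shiftRight (Sm 301 (dY p q)) (nat_lit 111) =
      (Sm 301 (dY p q) + 2 ^ (160 * 301) * 0) / 2 ^ 111 := by
    rw [mul_zero, add_zero]
    exact Nat.shiftRight_eq_div_pow _ _
  have e2 : Nat.land (Nat.shiftRight (Sm 301 (dY p q)) (nat_lit 111)) fK =
      Sm 301 (fun i => (dY p q i / 2 ^ 111) &&& fo (nat_lit 562949953421311) (vb i)) := by
    rw [e1, fK_eq]
    refine Sm_shift (s := 111) (by norm_num) hd (m := fun i => fo (nat_lit 562949953421311) (vb i))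
      ?_ 0
    intro i _
    show fo 562949953421311 (vb i) < _
    cases vb i
    · rw [fo_f]; norm_num
    · rw [fo_t]; norm_num
  rw [e2, Sz_cast]
  refine Sz_congr fun i _ => ?_
  have h1 := abs_le.1 (hp i)
  have h2 := abs_le.1 (hq i)
  show (((dY p q i / 2 ^ 111) &&& fo 562949953421311 (vb i) : ℕ) : ℤ) = rq q i + ov i
  unfold dY rq ov
  cases hv : vb i
  · rw [fo_f, Nat.and_zero]
    simp
  · have e5 : (562949953421311 : ℕ) = 2 ^ 49 - 1 := by norm_num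
    rw [fo_t, if_pos rfl, if_pos rfl, if_pos rfl, e5, land_ones]
    set P : ℕ := (p i + (2 ^ 79 + 2 ^ 30)).toNat with hP
    set Q : ℕ := (q i + (2 ^ 79 + 2 ^ 30)).toNat with hQ
    have hP80 : P < 2 ^ 80 := by omega
    have hQ80 : Q < 2 ^ 80 := by omega
    have e6 : (P + 2 ^ 80 * Q) / 2 ^ 111 % 2 ^ 49 = Q / 2 ^ 31 := by
      have e7 : (2 : ℕ) ^ 111 = 2 ^ 80 * 2 ^ 31 := by norm_num
      rw [e7, ← Nat.div_div_eq_div_mul, Nat.add_mul_div_left _ _ (by norm_num),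
        Nat.div_eq_of_lt hP80, zero_add, Nat.mod_eq_of_lt (by omega)]
    rw [e6, hQ, toNat_div (by omega)]
    omega

/-! ### sizes -/

section

variable {p q : ℕ → ℤ} {n : ℕ → ℕ}

/-- a term of the majorant -/
theorem fld_le {m : ℕ} (h : Wt m n ≤ 2 ^ 110) {d : ℕ} (hd : d < m) :
    (4 : ℝ) ^ d * (n d : ℝ) ≤ 2 ^ 110 := by
  have h1 : 4 ^ d * n d ≤ Wt m n :=
    Finset.single_le_sum (f := fun k => 4 ^ k * n k) (fun _ _ => Nat.zero_le _) (mem_range.2 hd)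
  have h2 : 4 ^ d * n d ≤ 2 ^ 110 := h1.trans h
  exact_mod_cast h2

theorem abs_cast {z m : ℤ} (h : |(z : ℝ)| ≤ (m : ℝ)) : |z| ≤ m := by
  rw [← Int.cast_abs] at h
  exact_mod_cast h

theorem coef_le (sp : Sp p) (sq : Sp q)
    (h : ∀ d < 7, 2 ^ 34 * Nh (zc p q) d ≤ 4 ^ d * (n d : ℝ)) (w : Wt 15 n ≤ 2 ^ 110) (i : ℕ) :
    |p i| ≤ 2 ^ 76 ∧ |q i| ≤ 2 ^ 76 := by
  cases hv : vb i
  · rw [sp i hv, sq i hv]
    norm_num
  · have hi : i < 301 := ((TM.vb_iff i).1 hv).1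
    have hd : i / 43 < 7 := by omega
    have h1 := h (i / 43) hd
    have h2 := fld_le w (show i / 43 < 15 by omega)
    have h3 : Nh (zc p q) (i / 43) ≤ 2 ^ 76 := by
      have : (2 : ℝ) ^ 34 * Nh (zc p q) (i / 43) ≤ 2 ^ 34 * 2 ^ 76 := by
        refine (h1.trans h2).trans (le_of_eq ?_)
        norm_num
      exact le_of_mul_le_mul_left this (by positivity)
    have h4 : ‖zc p q i‖ ≤ Nh (zc p q) (i / 43) := by
      have e : i = 43 * (i / 43) + i % 43 := (Nat.div_add_mod i 43).symm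
      have h5 : ‖zc p q (43 * (i / 43) + i % 43)‖ ≤ Nh (zc p q) (i / 43) :=
        Finset.single_le_sum (f := fun r => ‖zc p q (43 * (i / 43) + r)‖)
          (fun _ _ => norm_nonneg _) (mem_range.2 (Nat.mod_lt _ (by norm_num)))
      rwa [← e] at h5
    have h5 := Complex.abs_re_le_norm (zc p q i)
    have h6 := Complex.abs_im_le_norm (zc p q i)
    rw [TM.zc_re] at h5
    rw [TM.zc_im] at h6
    have h7 : |(p i : ℝ)| ≤ 2 ^ 76 := h5.trans (h4.trans h3)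
    have h8 : |(q i : ℝ)| ≤ 2 ^ 76 := h6.trans (h4.trans h3)
    have e76 : (((2 : ℤ) ^ 76 : ℤ) : ℝ) = (2 : ℝ) ^ 76 := by norm_num
    exact ⟨abs_cast (by rw [e76]; exact h7), abs_cast (by rw [e76]; exact h8)⟩

theorem toNat_cast (z : ℤ) : (((|z|).toNat : ℕ) : ℝ) = |(z : ℝ)| := by
  have h1 : (((|z|).toNat : ℕ) : ℤ) = |z| := Int.toNat_of_nonneg (abs_nonneg z)
  have h2 : ((((|z|).toNat : ℕ) : ℤ) : ℝ) = ((|z| : ℤ) : ℝ) := by rw [h1]
  rw [Int.cast_abs] at h2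
  exact_mod_cast h2

/-- the sum of the moduli of the rounded coefficients of a degree -/
theorem blk_le (sp : Sp p) (sq : Sp q) {d : ℕ} (hd : d < 7) :
    ((∑ r ∈ range 43, ((|rq p (43 * d + r)|).toNat + (|rq q (43 * d + r)|).toNat) : ℕ) : ℝ) ≤
      2 * Nh (zc p q) d / 2 ^ 31 + (d + 1) * (d + 2) / 2 := by
  have h1 : ∀ r ∈ range 43, (((|rq p (43 * d + r)|).toNat + (|rq q (43 * d + r)|).toNat : ℕ) : ℝ)
      ≤ 2 / 2 ^ 31 * ‖zc p q (43 * d + r)‖ +
        1 / 2 * ((if vb (43 * d + r) = true then 2 else 0 : ℕ) : ℝ) := by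
    intro r _
    push_cast
    rw [toNat_cast, toNat_cast]
    split_ifs with hv
    · have a1 := rq_err sp (43 * d + r)
      have a2 := rq_err sq (43 * d + r)
      have b1 := Complex.abs_re_le_norm (zc p q (43 * d + r))
      have b2 := Complex.abs_im_le_norm (zc p q (43 * d + r))
      rw [TM.zc_re] at b1
      rw [TM.zc_im] at b2
      have key : ∀ x y m : ℝ, |x / 2 ^ 31 - y| ≤ 1 / 2 → |x| ≤ m → |y| ≤ m / 2 ^ 31 + 1 / 2 := by
        intro x y m hx hm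
        have h3 := abs_le.1 hx
        have h4 := abs_le.1 hm
        rw [abs_le]
        constructor
        · have : -(m / 2 ^ 31) ≤ x / 2 ^ 31 := by
            rw [← neg_div]
            exact div_le_div_of_nonneg_right h4.1 (by positivity)
          linarith
        · have : x / 2 ^ 31 ≤ m / 2 ^ 31 := div_le_div_of_nonneg_right h4.2 (by positivity)
          linarith
      have c1 := key _ _ _ a1 b1
      have c2 := key _ _ _ a2 b2
      have e : (2 : ℝ) / 2 ^ 31 * ‖zc p q (43 * d + r)‖ = ‖zc p q (43 * d + r)‖ / 2 ^ 31 +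
        ‖zc p q (43 * d + r)‖ / 2 ^ 31 := by ring
      rw [e]
      linarith
    · have hv' : vb (43 * d + r) = false := by simpa using hv
      rw [rq_sp p _ hv', rq_sp q _ hv']
      have : 0 ≤ 2 / 2 ^ 31 * ‖zc p q (43 * d + r)‖ := by positivity
      simpa using this
  have h2 := Finset.sum_le_sum h1
  rw [Finset.sum_add_distrib, ← Finset.mul_sum, ← Finset.mul_sum] at h2
  rw [Nat.cast_sum]
  refine h2.trans (le_of_eq ?_)
  have h3 : ((∑ r ∈ range 43, (if vb (43 * d + r) = true then 2 else 0) : ℕ) : ℝ) =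
      (((d + 1) * (d + 2) : ℕ) : ℝ) := by rw [cnt hd]
  rw [Nat.cast_sum] at h3
  rw [h3]
  unfold Nh
  push_cast
  ring

/-- the error of the rounded coefficients of a degree -/
theorem err_blk (sp : Sp p) (sq : Sp q) {d : ℕ} (hd : d < 7) :
    Nh (fun i => zc p q i / 2 ^ 31 - zc (rq p) (rq q) i) d ≤ 3 / 8 * ((d + 1) * (d + 2)) := by
  have h1 : ∀ r ∈ range 43, ‖(fun i => zc p q i / 2 ^ 31 - zc (rq p) (rq q) i) (43 * d + r)‖ ≤
      3 / 8 * ((if vb (43 * d + r) = true then 2 else 0 : ℕ) : ℝ) := by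
    intro r _
    show ‖zc p q (43 * d + r) / 2 ^ 31 - zc (rq p) (rq q) (43 * d + r)‖ ≤ _
    split_ifs with hv
    · have a1 := abs_le.1 (rq_err sp (43 * d + r))
      have a2 := abs_le.1 (rq_err sq (43 * d + r))
      set w : ℂ := zc p q (43 * d + r) / 2 ^ 31 - zc (rq p) (rq q) (43 * d + r) with hw
      have e1 : w.re = (p (43 * d + r) : ℝ) / 2 ^ 31 - (rq p (43 * d + r) : ℝ) := by
        rw [hw, Complex.sub_re, TM.zc_re]
        have : (zc p q (43 * d + r) / 2 ^ 31).re = (zc p q (43 * d + r)).re / 2 ^ 31 := by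
          have h2 : (2 ^ 31 : ℂ) = ((2 ^ 31 : ℝ) : ℂ) := by push_cast; rfl
          rw [h2, Complex.div_ofReal_re]
        rw [this, TM.zc_re]
      have e2 : w.im = (q (43 * d + r) : ℝ) / 2 ^ 31 - (rq q (43 * d + r) : ℝ) := by
        rw [hw, Complex.sub_im, TM.zc_im]
        have : (zc p q (43 * d + r) / 2 ^ 31).im = (zc p q (43 * d + r)).im / 2 ^ 31 := by
          have h2 : (2 ^ 31 : ℂ) = ((2 ^ 31 : ℝ) : ℂ) := by push_cast; rfl
          rw [h2, Complex.div_ofReal_im]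
        rw [this, TM.zc_im]
      have h3 : ‖w‖ ^ 2 ≤ 1 / 2 := by
        rw [← Complex.normSq_eq_norm_sq, Complex.normSq_apply, e1, e2]
        nlinarith
      have h4 := norm_nonneg w
      push_cast
      by_contra hc
      push Not at hc
      nlinarith
    · have hv' : vb (43 * d + r) = false := by simpa using hv
      have e1 : zc p q (43 * d + r) = 0 := by
        unfold zc
        rw [sp _ hv', sq _ hv']
        simp
      have e2 : zc (rq p) (rq q) (43 * d + r) = 0 := by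
        unfold zc
        rw [rq_sp p _ hv', rq_sp q _ hv']
        simp
      rw [e1, e2]
      simp
  have h2 := Finset.sum_le_sum h1
  rw [← Finset.mul_sum] at h2
  have h3 : ((∑ r ∈ range 43, (if vb (43 * d + r) = true then 2 else 0) : ℕ) : ℝ) =
      (((d + 1) * (d + 2) : ℕ) : ℝ) := by rw [cnt hd]
  rw [Nat.cast_sum] at h3
  rw [h3] at h2
  unfold Nh
  refine h2.trans (le_of_eq ?_)
  push_cast
  ring

theorem cast3 {d x y : ℕ} (h : 4 ^ d * x ≤ 2 ^ 17 * (y + (d + 1) * (d + 2))) :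
    (4 : ℝ) ^ d * (x : ℝ) ≤ 2 ^ 17 * ((y : ℝ) + (d + 1) * (d + 2)) := by exact_mod_cast h

theorem Ev_sub {s : ℕ → ℝ} (z z' : ℕ → ℂ) :
    Ev s z / 2 ^ 31 - Ev s z' = Ev s (fun i => z i / 2 ^ 31 - z' i) := by
  unfold Ev
  rw [Finset.sum_div, ← Finset.sum_sub_distrib]
  refine Finset.sum_congr rfl fun i _ => ?_
  ring

/-- the weighted sum of the rounded model -/
theorem wt_le {n' : ℕ → ℕ} (sp : Sp p) (sq : Sp q)
    (h : ∀ d < 7, 2 ^ 34 * Nh (zc p q) d ≤ 4 ^ d * (n d : ℝ)) (w : Wt 15 n ≤ 2 ^ 110)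
    (h2 : ∀ d < 7, 4 ^ d * n' d ≤ 2 ^ 17 * ((∑ r ∈ range 43, ((|rq p (43 * d + r)|).toNat +
      (|rq q (43 * d + r)|).toNat)) + (d + 1) * (d + 2)))
    (h7 : n' 7 = Nat.shiftRight (Tl n) 48 + 232705) : Wt 8 n' ≤ 2 ^ 64 := by
  have a : ∀ d < 7, (4 : ℝ) ^ d * (n' d : ℝ) ≤ 4 ^ d * (n d : ℝ) / 2 ^ 47 +
      3 * 2 ^ 16 * ((d + 1) * (d + 2)) := by
    intro d hd
    have b1 : (4 : ℝ) ^ d * (n' d : ℝ) ≤ 2 ^ 17 * (((∑ r ∈ range 43,
        ((|rq p (43 * d + r)|).toNat + (|rq q (43 * d + r)|).toNat) : ℕ) : ℝ) +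
        (d + 1) * (d + 2)) := cast3 (h2 d hd)
    have b2 := blk_le sp sq hd
    have b3 : 2 * Nh (zc p q) d / 2 ^ 31 ≤ 4 ^ d * (n d : ℝ) / 2 ^ 64 := by
      have := h d hd
      have e : 2 * Nh (zc p q) d / 2 ^ 31 = 2 ^ 34 * Nh (zc p q) d / 2 ^ 64 := by
        norm_num
        ring
      rw [e]
      exact div_le_div_of_nonneg_right this (by positivity)
    have b4 : (4 : ℝ) ^ d * (n d : ℝ) / 2 ^ 47 = 2 ^ 17 * (4 ^ d * (n d : ℝ) / 2 ^ 64) := by
      norm_num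
      ring
    rw [b4]
    nlinarith
  have c7 : (4 : ℝ) ^ 7 * (n' 7 : ℝ) ≤ 4 ^ 7 * (Tl n : ℝ) / 2 ^ 48 + 4 ^ 7 * 232705 := by
    rw [h7]
    have e : Nat.shiftRight (Tl n) 48 = Tl n / 2 ^ 48 := Nat.shiftRight_eq_div_pow _ _
    have h3 : ((Tl n / 2 ^ 48 : ℕ) : ℝ) ≤ (Tl n : ℝ) / 2 ^ 48 := by
      have e9 : (((2 : ℕ) ^ 48 : ℕ) : ℝ) = 2 ^ 48 := by norm_num
      have h9 := @Nat.cast_div_le ℝ _ _ _ (Tl n) (2 ^ 48)
      rwa [e9] at h9
    rw [e]
    push_cast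
    push_cast at h3
    linarith
  have tl : (4 : ℝ) ^ 7 * (Tl n : ℝ) + ∑ d ∈ range 7, 4 ^ d * (n d : ℝ) ≤ 2 ^ 110 := by
    have e1 : 4 ^ 7 * Tl n + ∑ d ∈ range 7, 4 ^ d * n d ≤ Wt 15 n := by
      have e2 : Wt 15 n = ∑ d ∈ range 7, 4 ^ d * n d + ∑ k ∈ range 8, 4 ^ (7 + k) * n (7 + k) := by
        unfold Wt
        exact Finset.sum_range_add _ 7 8
      rw [e2, add_comm]
      refine Nat.add_le_add_left ?_ _
      unfold Tl
      rw [Finset.mul_sum]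
      refine Finset.sum_le_sum fun k _ => ?_
      exact Nat.mul_le_mul_right _ (Nat.pow_le_pow_right (by norm_num) (by omega))
    have e3 := cast_le' (e1.trans w)
    push_cast at e3
    norm_num at e3 ⊢
    linarith
  have e8 : ((Wt 8 n' : ℕ) : ℝ) = ∑ d ∈ range 7, 4 ^ d * (n' d : ℝ) + 4 ^ 7 * (n' 7 : ℝ) := by
    unfold Wt
    rw [Finset.sum_range_succ]
    push_cast
    ring
  have s1 : ∑ d ∈ range 7, (4 : ℝ) ^ d * (n' d : ℝ) ≤
      ∑ d ∈ range 7, (4 ^ d * (n d : ℝ) / 2 ^ 47 + 3 * 2 ^ 16 * ((d + 1) * (d + 2))) :=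
    Finset.sum_le_sum fun d hd => a d (mem_range.1 hd)
  have s2 : ∑ d ∈ range 7, ((4 : ℝ) ^ d * (n d : ℝ) / 2 ^ 47 + 3 * 2 ^ 16 * ((d + 1) * (d + 2))) =
      (∑ d ∈ range 7, 4 ^ d * (n d : ℝ)) / 2 ^ 47 + 3 * 2 ^ 16 * 168 := by
    rw [Finset.sum_add_distrib, ← Finset.sum_div]
    congr 1
    norm_num [Finset.sum_range_succ]
  have fin : ((Wt 8 n' : ℕ) : ℝ) ≤ ((2 ^ 64 : ℕ) : ℝ) := by
    rw [e8]
    rw [s2] at s1
    have t1 : (∑ d ∈ range 7, (4 : ℝ) ^ d * (n d : ℝ)) / 2 ^ 47 + 4 ^ 7 * (Tl n : ℝ) / 2 ^ 47 ≤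
        2 ^ 110 / 2 ^ 47 := by
      rw [← add_div]
      refine div_le_div_of_nonneg_right ?_ (by positivity)
      linarith
    have t2 : (4 : ℝ) ^ 7 * (Tl n : ℝ) / 2 ^ 48 ≤ 4 ^ 7 * (Tl n : ℝ) / 2 ^ 47 := by
      refine div_le_div_of_nonneg_left (by positivity) (by positivity) (by norm_num)
    push_cast
    norm_num at *
    linarith
  exact_mod_cast fin

end

theorem S_num : ∑ d ∈ range 7, (3 / 8 * (((d : ℕ) + 1 : ℝ) * (d + 2))) / 4 ^ d =
    232704 / 2 ^ 17 := by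
  norm_num [Finset.sum_range_succ]

end R60

open R60

variable {c : ℕ} {t : ℕ → ℝ} {f : ℂ} {u : RW}

/-- ROUNDING -/
theorem FV.rnd (hP : PT 3 t) (hu : RV c t f u) (h : c ≤ 16) : FV 1 t f (rndR u) := by
  intro hk
  have hk' : andB u.k (Nat.ble (dw u.D) (nat_lit 1298074214633706907132624082305024)) = true := hk
  obtain ⟨k1, k2⟩ := andB_t hk'
  obtain ⟨p, q, n, hR, hE⟩ := hu k1
  have hw16 : Wt 15 n ≤ 16 * 2 ^ 128 := hR.w.trans (Nat.mul_le_mul_right _ h)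
  have hW : Wt 15 n ≤ 2 ^ 110 := by
    have k2' : Nat.ble (dw u.D) 1298074214633706907132624082305024 = true := k2
    have h1 := Nat.le_of_ble_eq_true k2'
    rw [hR.D, dw_eq hw16] at h1
    exact h1.trans (le_of_eq (by norm_num))
  have hpq := coef_le hR.sp hR.sq hR.h hW
  have hp : ∀ i, |p i| ≤ 2 ^ 76 := fun i => (hpq i).1
  have hq : ∀ i, |q i| ≤ 2 ^ 76 := fun i => (hpq i).2
  have eY := Y_eq hR.N hR.sp hR.sq hp hq
  have ea := re_eq hp hq
  have eb := im_eq hp hq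
  have et : ds (Nat.shiftRight u.D (nat_lit 1120)) = Tl n := by
    rw [hR.D]
    exact tl_eq hw16
  obtain ⟨n', e1, e2, e3, e4⟩ := dg7_ok ea eb (rq_sp p) (rq_sp q) (rq_abs hp) (rq_abs hq) (Tl n)
  refine ⟨rq p, rq q, n', ⟨?_, ?_, ?_, rq_sp p, rq_sp q, ?_, ?_, e2, ?_⟩, ?_⟩
  · show ((Nat.land (Nat.shiftRight (Nat.land (Nat.add u.N fH) TM.cMA) (nat_lit 31)) fK : ℕ) : ℤ) = _
    rw [eY]
    exact ea
  · show ((Nat.land (Nat.shiftRight (Nat.land (Nat.add u.N fH) TM.cMA) (nat_lit 111)) fK : ℕ) : ℤ)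
      = _
    rw [eY]
    exact eb
  · rw [rndR, rnd1, rnd2]
    dsimp only
    rw [eY, et]
    exact e1
  · intro i
    have := rq_abs hp i
    simpa using this
  · intro i
    have := rq_abs hq i
    simpa using this
  · have := wt_le hR.sp hR.sq hR.h hW e3 e4
    simpa using this
  · have h1 : ‖2 ^ 31 * f - Ev (sS t) (zc p q) / 2 ^ 31‖ ≤ (Tl n : ℝ) / 2 ^ 65 := by
      have e5 : 2 ^ 31 * f - Ev (sS t) (zc p q) / 2 ^ 31 =
          (2 ^ 62 * f - Ev (sS t) (zc p q)) / 2 ^ 31 := by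
        field_simp
      have e6 : ‖(2 ^ 31 : ℂ)‖ = 2 ^ 31 := by norm_num
      rw [e5, norm_div, e6, div_le_iff₀ (by positivity)]
      refine hE.trans (le_of_eq ?_)
      norm_num
      ring
    have h2 : ‖Ev (sS t) (zc p q) / 2 ^ 31 - Ev (sS t) (zc (rq p) (rq q))‖ ≤ 232704 / 2 ^ 17 := by
      rw [Ev_sub]
      refine (Ev_le hP _).trans ?_
      rw [← S_num]
      refine Finset.sum_le_sum fun d hd => ?_
      exact div_le_div_of_nonneg_right (err_blk hR.sp hR.sq (mem_range.1 hd)) (by positivity)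
    have h3 : 2 ^ 31 * f - Ev (sS t) (zc (rq p) (rq q)) =
        (2 ^ 31 * f - Ev (sS t) (zc p q) / 2 ^ 31) +
        (Ev (sS t) (zc p q) / 2 ^ 31 - Ev (sS t) (zc (rq p) (rq q))) := by ring
    rw [h3]
    refine (norm_add_le _ _).trans ((add_le_add h1 h2).trans ?_)
    rw [e4]
    have e7 : Nat.shiftRight (Tl n) 48 = Tl n / 2 ^ 48 := Nat.shiftRight_eq_div_pow _ _
    have h4 : (Tl n : ℝ) / 2 ^ 48 ≤ ((Tl n / 2 ^ 48 : ℕ) : ℝ) + 1 := by
      have h5 : Tl n < (Tl n / 2 ^ 48 + 1) * 2 ^ 48 := by omega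
      have h6 : (Tl n : ℝ) < (((Tl n / 2 ^ 48 : ℕ) : ℝ) + 1) * 2 ^ 48 := by exact_mod_cast h5
      rw [div_le_iff₀ (by positivity)]
      exact h6.le
    rw [e7]
    have e8 : (Tl n : ℝ) / 2 ^ 65 = (Tl n : ℝ) / 2 ^ 48 / 2 ^ 17 := by
      rw [div_div]
      norm_num
    rw [e8, ← add_div]
    refine div_le_div_of_nonneg_right ?_ (by positivity)
    push_cast
    push_cast at h4
    linarith

end Pool.Agent.Helper91.FU
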