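import Pool.Agent.Helper91.FU.RC
import Pool.Agent.Helper91.TM.R

/-!
Fused machine (MP_c75db0, star frame), row R, part 1: the majorant of the digits.
-/

set_option autoImplicit false
set_option exponentiation.threshold 100000
noncomputable section
namespace Pool.Agent.Helper91.FU

open Finset
open Pool.Agent.Helper91
open Pool.Agent.Helper90.KMT (PT)
open Pool.Agent.Helper90.KMO (UU UU_pos andB_t)
open Pool.Agent.Helper86.CX (andB)
open Pool.Agent.Helper86.CT (Mo)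
open Pool.Agent.Helper91.TM (TP Sm Sz Sp Ev Nh zc tS vb xd ds SB fo fo_t fo_f cst_of Sm_add Sm_sub
  Sm_mul Sm_land Sm_shift Sm_congr Sz_cast Sz_congr land_ones bs blk)
open Pool.Agent.Helper91.TMK (TOK)

namespace R60

/-! ### exclusive or -/

theorem xor_split {k a b a' b' : ℕ} (ha : a < 2 ^ k) (ha' : a' < 2 ^ k) :
    (a + 2 ^ k * b) ^^^ (a' + 2 ^ k * b') = (a ^^^ a') + 2 ^ k * (b ^^^ b') := by
  have hl : a ^^^ a' < 2 ^ k := Nat.xor_lt_two_pow ha ha'
  apply Nat.eq_of_testBit_eq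
  intro i
  rw [Nat.testBit_xor, add_comm a, add_comm a', add_comm (a ^^^ a'),
    Nat.testBit_two_pow_mul_add _ ha, Nat.testBit_two_pow_mul_add _ ha',
    Nat.testBit_two_pow_mul_add _ hl]
  split_ifs
  · rw [Nat.testBit_xor]
  · rw [Nat.testBit_xor]

theorem Sm_xor {n : ℕ} {d m : ℕ → ℕ} (hd : ∀ i < n, d i < 2 ^ 160)
    (hm : ∀ i < n, m i < 2 ^ 160) : Sm n d ^^^ Sm n m = Sm n (fun i => d i ^^^ m i) := by
  induction n with
  | zero => simp [Sm]
  | succ n ih =>
    have h1 : Sm n d < 2 ^ (160 * n) := TM.Sm_lt fun i hi => hd i (by omega)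
    have h2 : Sm n m < 2 ^ (160 * n) := TM.Sm_lt fun i hi => hm i (by omega)
    have e1 : ∀ f : ℕ → ℕ, Sm (n + 1) f = Sm n f + 2 ^ (160 * n) * f n := by
      intro f
      rw [Sm, mul_comm]
    rw [e1, e1, e1, xor_split h1 h2, ih (fun i hi => hd i (by omega)) fun i hi => hm i (by omega)]

theorem xor_ones {x k : ℕ} (h : x < 2 ^ k) : x ^^^ (2 ^ k - 1) = 2 ^ k - (x + 1) := by
  apply Nat.eq_of_testBit_eq
  intro i
  rw [Nat.testBit_xor, Nat.testBit_two_pow_sub_one, Nat.testBit_two_pow_sub_succ h]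
  by_cases hi : i < k
  · simp [hi]
  · have : x.testBit i = false := Nat.testBit_lt_two_pow (lt_of_lt_of_le h
      (Nat.pow_le_pow_right (by norm_num) (by omega)))
    simp [hi, this]

/-! ### absolute values, one less for negative numbers -/

/-- the absolute value, one less for negative numbers -/
def aq (z : ℤ) : ℕ := if 0 ≤ z then z.toNat else (-z - 1).toNat

theorem aq_le (z : ℤ) : aq z ≤ (|z|).toNat := by
  unfold aq
  split_ifs with h
  · rw [abs_of_nonneg h]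
  · rw [abs_of_neg (by omega)]
    omega

theorem le_aq (z : ℤ) : (|z|).toNat ≤ aq z + 1 := by
  unfold aq
  split_ifs with h
  · rw [abs_of_nonneg h]
    omega
  · rw [abs_of_neg (by omega)]
    omega

theorem aq_zero : aq 0 = 0 := rfl

theorem fS_eq : fS = Sm 301 (fun i => fo (nat_lit 1) (vb i)) := cst_of (by decide +kernel)
theorem fL_eq : fL = Sm 301 (fun i => fo (nat_lit 281474976710655) (vb i)) :=
  cst_of (by decide +kernel)

/-- the digits -/
theorem dig_of {a : ℕ} {p : ℕ → ℤ} (ha : (a : ℤ) = Sz 301 (fun i => p i + ov i)) (sp : Sp p)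
    (bp : ∀ i, |p i| ≤ 2 ^ 46) : a = Sm 301 (fun i => (p i + ov i).toNat) := by
  have h : ((a : ℕ) : ℤ) = ((Sm 301 (fun i => (p i + ov i).toNat) : ℕ) : ℤ) := by
    rw [ha, Sz_cast]
    refine Sz_congr fun i _ => ?_
    have h1 := abs_le.1 (bp i)
    unfold ov
    split_ifs with hv
    · rw [Int.toNat_of_nonneg (by omega)]
    · rw [sp i (by simpa using hv)]
      rfl
  exact_mod_cast h

theorem abF_eq {a : ℕ} {p : ℕ → ℤ} (ha : (a : ℤ) = Sz 301 (fun i => p i + ov i)) (sp : Sp p)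
    (bp : ∀ i, |p i| ≤ 2 ^ 46) : abF a = Sm 301 (fun i => aq (p i)) := by
  set d : ℕ → ℕ := fun i => (p i + ov i).toNat with hdd
  have e0 : a = Sm 301 d := dig_of ha sp bp
  have dt : ∀ {i}, vb i = true → d i = (p i + 2 ^ 48).toNat := by
    intro i hv
    show (p i + ov i).toNat = _
    unfold ov
    rw [if_pos hv]
  have df : ∀ {i}, vb i = false → d i = 0 := by
    intro i hv
    show (p i + ov i).toNat = _
    unfold ov
    rw [if_neg (by simp [hv]), sp i hv]
    rfl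
  have hd : ∀ i < 301, d i < 2 ^ 160 := by
    intro i _
    have h1 := abs_le.1 (bp i)
    cases hv : vb i
    · rw [df hv]
      norm_num
    · rw [dt hv]
      omega
  -- the signs
  set sg : ℕ → ℕ := fun i => bif vb i then (if 0 ≤ p i then 1 else 0) else 0 with hsg
  set tg : ℕ → ℕ := fun i => bif vb i then (if 0 ≤ p i then 0 else 1) else 0 with htg
  have hS : Nat.land (Nat.shiftRight (Sm 301 d) (nat_lit 48)) fS = Sm 301 sg := by
    have e1 : Nat.shiftRight (Sm 301 d) (nat_lit 48) =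
        (Sm 301 d + 2 ^ (160 * 301) * 0) / 2 ^ 48 := by
      rw [mul_zero, add_zero]
      exact Nat.shiftRight_eq_div_pow _ _
    rw [e1, fS_eq]
    refine (Sm_shift (s := 48) (by norm_num) hd (m := fun i => fo (nat_lit 1) (vb i)) ?_ 0).trans
      (Sm_congr fun i hi => ?_)
    · intro i _
      show fo 1 (vb i) < _
      cases vb i
      · rw [fo_f]; norm_num
      · rw [fo_t]; norm_num
    · show d i / 2 ^ 48 &&& fo 1 (vb i) = bif vb i then (if 0 ≤ p i then 1 else 0) else 0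
      cases hv : vb i
      · rw [fo_f, Nat.and_zero]
        rfl
      · rw [fo_t, dt hv, cond_true]
        have h1 := abs_le.1 (bp i)
        have h2 : (p i + 2 ^ 48).toNat / 2 ^ 48 = if 0 ≤ p i then 1 else 0 := by
          split_ifs with h3
          · have h4 : 2 ^ 48 ≤ (p i + 2 ^ 48).toNat := by omega
            have h5 : (p i + 2 ^ 48).toNat < 2 * 2 ^ 48 := by omega
            rw [Nat.div_eq_iff (by norm_num)]
            omega
          · exact Nat.div_eq_of_lt (by omega)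
        rw [h2]
        split_ifs <;> rfl
  have hsub : Nat.sub fS (Sm 301 sg) = Sm 301 tg := by
    have e1 : Nat.sub fS (Sm 301 sg) = fS - Sm 301 sg := rfl
    rw [e1, fS_eq, ← Sm_sub]
    · refine Sm_congr fun i hi => ?_
      show fo 1 (vb i) - (bif vb i then (if 0 ≤ p i then 1 else 0) else 0) =
        bif vb i then (if 0 ≤ p i then 0 else 1) else 0
      cases vb i
      · rfl
      · rw [fo_t, cond_true, cond_true]
        split_ifs <;> rfl
    · intro i _
      show (bif vb i then (if 0 ≤ p i then 1 else 0) else 0) ≤ fo 1 (vb i)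
      cases vb i
      · exact le_rfl
      · rw [fo_t, cond_true]
        split_ifs <;> norm_num
  have hm : Nat.sub (Nat.shiftLeft (Sm 301 tg) (nat_lit 48)) (Sm 301 tg) =
      Sm 301 (fun i => tg i * 2 ^ 48 - tg i) := by
    have e1 : Nat.shiftLeft (Sm 301 tg) (nat_lit 48) = Sm 301 tg * 2 ^ 48 :=
      Nat.shiftLeft_eq _ _
    rw [e1, ← Sm_mul]
    show Sm 301 _ - Sm 301 _ = _
    rw [Sm_sub]
    intro i _
    exact Nat.le_mul_of_pos_right _ (by positivity)
  have htl : ∀ i, tg i ≤ 1 := by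
    intro i
    show (bif vb i then (if 0 ≤ p i then 0 else 1) else 0) ≤ 1
    cases vb i
    · exact Nat.zero_le _
    · rw [cond_true]
      split_ifs <;> norm_num
  have hm160 : ∀ i < 301, tg i * 2 ^ 48 - tg i < 2 ^ 160 := by
    intro i _
    have := htl i
    have h2 : tg i * 2 ^ 48 ≤ 1 * 2 ^ 48 := Nat.mul_le_mul_right _ this
    have h3 : (1 : ℕ) * 2 ^ 48 < 2 ^ 160 := by norm_num
    omega
  have e2 : abF a = Nat.land (Nat.xor (Sm 301 d) (Nat.sub (Nat.shiftLeft (Nat.sub fS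
      (Nat.land (Nat.shiftRight (Sm 301 d) (nat_lit 48)) fS)) (nat_lit 48)) (Nat.sub fS
      (Nat.land (Nat.shiftRight (Sm 301 d) (nat_lit 48)) fS)))) fL := by
    rw [← e0]
    rfl
  rw [e2, hS, hsub, hm]
  have e3 : Nat.xor (Sm 301 d) (Sm 301 (fun i => tg i * 2 ^ 48 - tg i)) =
      Sm 301 (fun i => d i ^^^ (tg i * 2 ^ 48 - tg i)) := Sm_xor hd hm160
  rw [e3, fL_eq]
  have hx : ∀ i < 301, d i ^^^ (tg i * 2 ^ 48 - tg i) < 2 ^ 160 := fun i hi =>
    Nat.xor_lt_two_pow (hd i hi) (hm160 i hi)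
  have e4 : Nat.land (Sm 301 (fun i => d i ^^^ (tg i * 2 ^ 48 - tg i)))
      (Sm 301 (fun i => fo (nat_lit 281474976710655) (vb i))) =
      (Sm 301 (fun i => d i ^^^ (tg i * 2 ^ 48 - tg i)) + 2 ^ (160 * 301) * 0) &&&
      (Sm 301 (fun i => fo (nat_lit 281474976710655) (vb i))) := by
    rw [mul_zero, add_zero]
    rfl
  rw [e4]
  refine (Sm_land hx ?_ 0).trans (Sm_congr fun i hi => ?_)
  · intro i _
    show fo 281474976710655 (vb i) < _
    cases vb i
    · rw [fo_f]; norm_num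
    · rw [fo_t]; norm_num
  · show (d i ^^^ (tg i * 2 ^ 48 - tg i)) &&& fo 281474976710655 (vb i) = aq (p i)
    have h1 := abs_le.1 (bp i)
    cases hv : vb i
    · rw [fo_f, Nat.and_zero, sp i hv, aq_zero]
    · have e5 : (281474976710655 : ℕ) = 2 ^ 48 - 1 := by norm_num
      rw [fo_t, dt hv, e5, land_ones]
      have e6 : tg i = if 0 ≤ p i then 0 else 1 := by
        show (bif vb i then (if 0 ≤ p i then 0 else 1) else 0) = _
        rw [hv, cond_true]
      rw [e6]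
      unfold aq
      split_ifs with h2
      · rw [zero_mul, Nat.sub_zero, Nat.xor_zero]
        omega
      · rw [one_mul, xor_ones (by omega)]
        omega

/-- the sum of a block, shifted -/
theorem bkF_eq {D : ℕ → ℕ} (hD : ∀ i, D i ≤ 2 ^ 78) {k : ℕ} (hk : k < 7) (s : ℕ) :
    bkF (Sm 301 D) (6880 * k) s = bs D k * 2 ^ s := by
  have e1 : bkF (Sm 301 D) (6880 * k) s =
      Nat.shiftLeft (ds (Nat.land (Nat.shiftRight (Sm 301 D) (6880 * k)) TM.cBK)) s := rfl
  have e2 : Nat.shiftRight (Sm 301 D) (6880 * k) = Sm 301 D / 2 ^ (160 * (43 * k)) := by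
    have : 160 * (43 * k) = 6880 * k := by ring
    rw [this]
    exact Nat.shiftRight_eq_div_pow _ _
  rw [e1, e2, blk hk hD]
  exact Nat.shiftLeft_eq _ _

theorem dN_eq : dN = 262144 * 2 ^ 0 + 196608 * 2 ^ 160 + 98304 * 2 ^ 320 + 40960 * 2 ^ 480 +
    15360 * 2 ^ 640 + 5376 * 2 ^ 800 + 1792 * 2 ^ 960 + 232705 * 2 ^ 1120 := by
  decide +kernel

/-- the fields of the majorant -/
def nR (D : ℕ → ℕ) (T d : ℕ) : ℕ :=
  if d < 7 then (bs D d + (d + 1) * (d + 2)) * 2 ^ (17 - 2 * d) else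
    if d = 7 then Nat.shiftRight T 48 + 232705 else 0

theorem nR_lt {D : ℕ → ℕ} {T d : ℕ} (h : d < 7) :
    nR D T d = (bs D d + (d + 1) * (d + 2)) * 2 ^ (17 - 2 * d) := by
  unfold nR
  rw [if_pos h]

theorem nR_7 {D : ℕ → ℕ} {T : ℕ} : nR D T 7 = Nat.shiftRight T 48 + 232705 := by
  unfold nR
  rw [if_neg (by norm_num), if_pos rfl]

theorem nR_pow {D : ℕ → ℕ} {T d : ℕ} (h : d < 7) :
    4 ^ d * nR D T d = 2 ^ 17 * (bs D d + (d + 1) * (d + 2)) := by
  have e : (2 : ℕ) ^ 17 = 4 ^ d * 2 ^ (17 - 2 * d) := by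
    have : (4 : ℕ) ^ d = 2 ^ (2 * d) := by rw [pow_mul]; norm_num
    rw [this, ← pow_add]
    congr 1
    omega
  rw [nR_lt h, e]
  ring

theorem Sm8 (n : ℕ → ℕ) : Sm 8 n = n 0 * 2 ^ 0 + n 1 * 2 ^ 160 + n 2 * 2 ^ 320 +
    n 3 * 2 ^ 480 + n 4 * 2 ^ 640 + n 5 * 2 ^ 800 + n 6 * 2 ^ 960 + n 7 * 2 ^ 1120 := by
  rw [TM.Sm_eq]
  simp only [Finset.sum_range_succ, Finset.sum_range_zero, zero_add]

theorem dgR_eq {a b : ℕ} {p q : ℕ → ℤ} (ha : (a : ℤ) = Sz 301 (fun i => p i + ov i))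
    (hb : (b : ℤ) = Sz 301 (fun i => q i + ov i)) (sp : Sp p) (sq : Sp q)
    (bp : ∀ i, |p i| ≤ 2 ^ 46) (bq : ∀ i, |q i| ≤ 2 ^ 46) (T : ℕ) :
    dgR a b T = Sm 8 (nR (fun i => aq (p i) + aq (q i)) T) := by
  set D : ℕ → ℕ := fun i => aq (p i) + aq (q i) with hDd
  have hD : ∀ i, D i ≤ 2 ^ 78 := by
    intro i
    show aq (p i) + aq (q i) ≤ _
    have h1 := aq_le (p i)
    have h2 := aq_le (q i)
    have h3 := bp i
    have h4 := bq i
    omega
  have e1 : Nat.add (abF a) (abF b) = Sm 301 D := by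
    rw [abF_eq ha sp bp, abF_eq hb sq bq]
    exact (Sm_add _ _ _).symm
  have e2 : dgR a b T = dg7 (Nat.add (abF a) (abF b)) + dN +
      Nat.shiftLeft (Nat.shiftRight T 48) 1120 := rfl
  have b0 := bkF_eq hD (k := 0) (by norm_num) 17
  have b1 := bkF_eq hD (k := 1) (by norm_num) 175
  have b2 := bkF_eq hD (k := 2) (by norm_num) 333
  have b3 := bkF_eq hD (k := 3) (by norm_num) 491
  have b4 := bkF_eq hD (k := 4) (by norm_num) 649
  have b5 := bkF_eq hD (k := 5) (by norm_num) 807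
  have b6 := bkF_eq hD (k := 6) (by norm_num) 965
  have e3 : dg7 (Sm 301 D) = bkF (Sm 301 D) (6880 * 0) 17 + (bkF (Sm 301 D) (6880 * 1) 175 +
      (bkF (Sm 301 D) (6880 * 2) 333 + (bkF (Sm 301 D) (6880 * 3) 491 +
      (bkF (Sm 301 D) (6880 * 4) 649 + (bkF (Sm 301 D) (6880 * 5) 807 +
      bkF (Sm 301 D) (6880 * 6) 965))))) := rfl
  have e4 : Nat.shiftLeft (Nat.shiftRight T 48) 1120 = Nat.shiftRight T 48 * 2 ^ 1120 :=
    Nat.shiftLeft_eq _ _
  rw [e2, e1, e3, b0, b1, b2, b3, b4, b5, b6, e4, dN_eq, Sm8, nR_7, nR_lt (by norm_num),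
    nR_lt (by norm_num), nR_lt (by norm_num), nR_lt (by norm_num), nR_lt (by norm_num),
    nR_lt (by norm_num), nR_lt (by norm_num)]
  norm_num
  ring

/-- the number of the digits in use of a degree -/
theorem cnt {d : ℕ} (h : d < 7) :
    ∑ r ∈ range 43, (if vb (43 * d + r) = true then 2 else 0) = (d + 1) * (d + 2) := by
  interval_cases d <;> decide +kernel

theorem Nh_le_sum (p q : ℕ → ℤ) (d : ℕ) : Nh (zc p q) d ≤
    ((∑ r ∈ range 43, ((|p (43 * d + r)|).toNat + (|q (43 * d + r)|).toNat) : ℕ) : ℝ) := by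
  unfold Nh
  push_cast
  refine Finset.sum_le_sum fun r _ => ?_
  have h1 : ∀ z : ℤ, (((|z|).toNat : ℕ) : ℝ) = |(z : ℝ)| := by
    intro z
    have : (((|z|).toNat : ℕ) : ℤ) = |z| := Int.toNat_of_nonneg (abs_nonneg z)
    have h2 : ((((|z|).toNat : ℕ) : ℤ) : ℝ) = ((|z| : ℤ) : ℝ) := by rw [this]
    rw [Int.cast_abs] at h2
    exact_mod_cast h2
  rw [h1, h1]
  have h3 := Complex.norm_le_abs_re_add_abs_im (zc p q (43 * d + r))
  rw [TM.zc_re, TM.zc_im] at h3
  exact h3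

theorem cast_pow_eq {d x y : ℕ} (h : 4 ^ d * x = 2 ^ 17 * y) :
    (4 : ℝ) ^ d * (x : ℝ) = 2 ^ 17 * (y : ℝ) := by exact_mod_cast h

theorem cast_le' {x y : ℕ} (h : x ≤ y) : (x : ℝ) ≤ (y : ℝ) := by exact_mod_cast h

end R60

open R60

/-- the majorant of the digits -/
theorem dg7_ok {a b : ℕ} {p q : ℕ → ℤ} (ha : (a : ℤ) = Sz 301 (fun i => p i + ov i))
    (hb : (b : ℤ) = Sz 301 (fun i => q i + ov i)) (sp : Sp p) (sq : Sp q)
    (bp : ∀ i, |p i| ≤ 2 ^ 46) (bq : ∀ i, |q i| ≤ 2 ^ 46) (T : ℕ) : ∃ n : ℕ → ℕ,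
    dgR a b T = Sm 8 n ∧ (∀ d < 7, 2 ^ 17 * Nh (zc p q) d ≤ 4 ^ d * (n d : ℝ)) ∧
    (∀ d < 7, 4 ^ d * n d ≤ 2 ^ 17 * ((∑ r ∈ range 43, ((|p (43 * d + r)|).toNat +
      (|q (43 * d + r)|).toNat)) + (d + 1) * (d + 2))) ∧
    n 7 = Nat.shiftRight T 48 + 232705 := by
  refine ⟨nR (fun i => aq (p i) + aq (q i)) T, dgR_eq ha hb sp sq bp bq T, ?_, ?_, nR_7⟩
  · intro d hd
    have h1 := Nh_le_sum p q d
    have h2 : (∑ r ∈ range 43, ((|p (43 * d + r)|).toNat + (|q (43 * d + r)|).toNat)) ≤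
        bs (fun i => aq (p i) + aq (q i)) d + (d + 1) * (d + 2) := by
      rw [← cnt hd]
      unfold bs
      rw [← Finset.sum_add_distrib]
      refine Finset.sum_le_sum fun r _ => ?_
      show _ ≤ aq (p (43 * d + r)) + aq (q (43 * d + r)) + _
      have h3 := le_aq (p (43 * d + r))
      have h4 := le_aq (q (43 * d + r))
      split_ifs with hv
      · omega
      · have hv' : vb (43 * d + r) = false := by simpa using hv
        rw [sp _ hv', sq _ hv']
        simp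
    rw [cast_pow_eq (nR_pow (D := fun i => aq (p i) + aq (q i)) (T := T) hd)]
    exact mul_le_mul_of_nonneg_left (h1.trans (cast_le' h2)) (by positivity)
  · intro d hd
    rw [nR_pow hd]
    refine Nat.mul_le_mul_left _ (Nat.add_le_add_right ?_ _)
    unfold bs
    exact Finset.sum_le_sum fun r _ => Nat.add_le_add (aq_le _) (aq_le _)

end Pool.Agent.Helper91.FU
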